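import Pool.Agent.Run7.h74.MQ

set_option autoImplicit false

namespace Pool.Agent.Run7.h74.MQ

open DirichletCharacter Filter Topology

lemma sq_values {n : ℕ} (χ : DirichletCharacter ℂ n) (h : χ ^ 2 = 1) (a : ZMod n) :
    χ a = 0 ∨ χ a = 1 ∨ χ a = -1 := by
  by_cases ha : IsUnit a
  · right
    have h2 := congrArg (fun f : DirichletCharacter ℂ n => f a) h
    simp only [pow_two, MulChar.mul_apply, MulChar.one_apply ha] at h2
    exact mul_self_eq_one_iff.1 h2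
  · exact Or.inl (χ.map_nonunit ha)

lemma factor_pos {n : ℕ} (χ : DirichletCharacter ℂ n) (h : χ ^ 2 = 1) (ℓ : ℕ) (hℓ : 2 ≤ ℓ)
    (s : ℝ) (hs : 0 < s) :
    ∃ r : ℝ, 0 < r ∧ (1 - χ (ℓ : ZMod n) * (ℓ : ℂ) ^ (-(s : ℂ))) = (r : ℂ) := by
  have h1 : (ℓ : ℂ) ^ (-(s : ℂ)) = (((ℓ : ℝ) ^ (-s) : ℝ) : ℂ) := by
    rw [Complex.ofReal_cpow (by positivity)]
    push_cast
    rfl
  have h2 : (ℓ : ℝ) ^ (-s) < 1 :=
    Real.rpow_lt_one_of_one_lt_of_neg (by exact_mod_cast hℓ) (by linarith)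
  have h3 : 0 < (ℓ : ℝ) ^ (-s) := Real.rpow_pos_of_pos (by positivity) _
  rcases sq_values χ h (ℓ : ZMod n) with h4 | h4 | h4
  · exact ⟨1, one_pos, by rw [h4]; simp⟩
  · refine ⟨1 - (ℓ : ℝ) ^ (-s), by linarith, ?_⟩
    rw [h4, h1]
    push_cast
    ring
  · refine ⟨1 + (ℓ : ℝ) ^ (-s), by linarith, ?_⟩
    rw [h4, h1]
    push_cast
    ring

lemma prod_factor_pos {n : ℕ} (χ : DirichletCharacter ℂ n) (h : χ ^ 2 = 1) (T : Finset ℕ)
    (hT : ∀ ℓ ∈ T, 2 ≤ ℓ) (s : ℝ) (hs : 0 < s) :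
    ∃ r : ℝ, 0 < r ∧ ∏ ℓ ∈ T, (1 - χ (ℓ : ZMod n) * (ℓ : ℂ) ^ (-(s : ℂ))) = (r : ℂ) := by
  classical
  induction T using Finset.induction_on with
  | empty => exact ⟨1, one_pos, by simp⟩
  | insert a T ha ih =>
    obtain ⟨r, hr, h1⟩ := ih fun ℓ hℓ => hT ℓ (Finset.mem_insert_of_mem hℓ)
    obtain ⟨t, ht, h2⟩ := factor_pos χ h a (hT a (Finset.mem_insert_self _ _)) s hs
    refine ⟨t * r, by positivity, ?_⟩
    rw [Finset.prod_insert ha, h1, h2]
    push_cast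
    rfl

lemma Positive.of_twist {p q : Char} (hp : Rp p) (hq : Rp q) (h : Positive (twist p q)) :
    Positive (prod p q) := by
  obtain ⟨hne, h⟩ := h
  have hr := hp.prod hq
  have hne' : NeZero (prod p q).1 := ⟨hr.1⟩
  have hne2 : NeZero (p.2.mul q.2).conductor := hne'
  have hne3 : NeZero (Nat.lcm p.1 q.1) := hne
  refine ⟨hne', fun s hs0 hs1 => ?_⟩
  have h1 := changeLevel_primitiveCharacter (χ := p.2.mul q.2)
  have hs : ((s : ℂ)) ≠ 1 := by
    intro h0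
    have : s = 1 := by exact_mod_cast h0
    linarith
  obtain ⟨r, hr0, hr1⟩ := prod_factor_pos (prod p q).2 hr.2.2 (twist p q).1.primeFactors
    (fun ℓ hℓ => (Nat.prime_of_mem_primeFactors hℓ).two_le) s hs0
  have h2 := LFunction_changeLevel (conductor_dvd_level (p.2.mul q.2))
    (p.2.mul q.2).primitiveCharacter (s := (s : ℂ)) (Or.inr hs)
  have h3 : LFunction (twist p q).2 (s : ℂ) = LFunction (prod p q).2 (s : ℂ) * (r : ℂ) := by
    rw [← hr1]
    rw [h1] at h2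
    exact h2
  obtain ⟨h4, h5⟩ := h s hs0 hs1
  rw [h3] at h4 h5
  rw [Complex.mul_im, Complex.ofReal_im, Complex.ofReal_re, mul_zero, zero_add] at h4
  rw [Complex.mul_re, Complex.ofReal_im, Complex.ofReal_re, mul_zero, sub_zero] at h5
  refine ⟨?_, ?_⟩
  · rcases mul_eq_zero.1 h4 with h6 | h6
    · exact h6
    · exact absurd h6 hr0.ne'
  · exact (mul_pos_iff_of_pos_right hr0).1 h5

lemma not_positive_triv : ¬ Positive triv := by
  rintro ⟨hne, h⟩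
  have h0 : ∀ s : ℝ, 0 < s → s < 1 → 0 < (riemannZeta (s : ℂ)).re := by
    intro s hs hs1
    have := (h s hs hs1).2
    have e : LFunction triv.2 = riemannZeta := LFunction_modOne_eq
    rw [e] at this
    exact this
  have ht : Tendsto (fun s : ℝ => ((s : ℂ) - 1) * riemannZeta (s : ℂ)) (𝓝[<] 1) (𝓝 1) := by
    refine riemannZeta_residue_one.comp ?_
    rw [tendsto_nhdsWithin_iff]
    refine ⟨?_, ?_⟩
    · have : Tendsto (fun s : ℝ => (s : ℂ)) (𝓝 1) (𝓝 ((1 : ℝ) : ℂ)) :=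
        Complex.continuous_ofReal.tendsto 1
      rw [Complex.ofReal_one] at this
      exact this.mono_left nhdsWithin_le_nhds
    · filter_upwards [self_mem_nhdsWithin] with s hs
      intro h1
      rw [Set.mem_singleton_iff] at h1
      have h1' : s = 1 := by exact_mod_cast h1
      rw [Set.mem_Iio] at hs
      linarith
  have ht2 := (Complex.continuous_re.tendsto (1 : ℂ)).comp ht
  have hle : (1 : ℂ).re ≤ 0 := by
    refine le_of_tendsto ht2 ?_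
    have hpos : ∀ᶠ s : ℝ in 𝓝[<] (1 : ℝ), 0 < s :=
      (eventually_gt_nhds one_pos).filter_mono nhdsWithin_le_nhds
    filter_upwards [self_mem_nhdsWithin, hpos] with s hs hs0
    rw [Set.mem_Iio] at hs
    have h1 := h0 s hs0 hs
    have e : ((s : ℂ) - 1) = (((s - 1 : ℝ)) : ℂ) := by push_cast; rfl
    simp only [Function.comp_apply]
    rw [e, Complex.re_ofReal_mul]
    nlinarith
  rw [Complex.one_re] at hle
  linarith

/-- The pairs `(N, χ)` with `1 ≤ N ≤ X` and `χ` a nontrivial primitive quadratic Dirichlet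
character modulo `N` such that `χ(-1) = s` and `χ(p) = c p` for all `p ∈ S`. -/
def Class (S : Finset ℕ) (c : ℕ → ℤ) (s : ℤ) (X : ℕ) : Set Char :=
  {p | p.1 ≠ 0 ∧ p.1 ≤ X ∧ p.2.IsPrimitive ∧ p.2 ^ 2 = 1 ∧ p.2 ≠ 1 ∧ p.2 (-1) = (s : ℂ) ∧
    ∀ q ∈ S, p.2 (q : ZMod p.1) = (c q : ℂ)}

def Twister (S : Finset ℕ) (Q : Char) : Prop :=
  Odd Q.1 ∧ Q.2.IsPrimitive ∧ Q.2 ^ 2 = 1 ∧ ∀ p ∈ S, ¬ p ∣ Q.1

/-- what we use on simultaneous twists -/
def Base (S : Finset ℕ) (c : ℕ → ℤ) (s : ℤ) : Prop :=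
  (∀ X : ℕ, (Class S c s X).Finite) ∧
    (∃ κ : ℝ, 0 < κ ∧ ∃ X0 : ℕ, ∀ X : ℕ, X0 ≤ X →
      κ * (X : ℝ) ≤ ((Class S c s X).ncard : ℝ)) ∧
    (∀ (n : ℕ) (Ψ : Fin n → Char), (∀ i, Twister S (Ψ i)) → ∃ X0 : ℕ, ∀ X : ℕ, X0 ≤ X →
      ∀ j : ℕ, (1 - 1351 / 10000 * n / (j + 1) : ℝ) * ((Class S c s X).ncard : ℝ) ≤
        ((Class S c s X ∩ {p | {i | ¬ Positive (twist p (Ψ i))}.ncard ≤ j}).ncard : ℝ))

/-- the nontrivial characters in `Γ` whose L-function is not positive -/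
def Exc (Γ : Set Char) : Set Char := {p | p ∈ Γ ∧ p ≠ triv ∧ ¬ Positive p}

lemma Class.rp {S : Finset ℕ} {c : ℕ → ℤ} {s : ℤ} {X : ℕ} {p : Char} (h : p ∈ Class S c s X) :
    Rp p := ⟨h.1, h.2.2.1, h.2.2.2.1⟩

lemma enum {k : ℕ} {Γ : Set Char} (h : Multiquadratic k Γ) :
    ∃ Ψ : Fin (2 ^ k) → Char, Function.Injective Ψ ∧ Set.range Ψ = Γ := by
  have hfin := h.finite
  have : Fintype Γ := hfin.fintype
  have hc : Fintype.card Γ = 2 ^ k := by
    rw [← h.card, ← Nat.card_coe_set_eq, Nat.card_eq_fintype_card]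
  let e : Fin (2 ^ k) ≃ Γ := (Fintype.equivFinOfCardEq hc).symm
  refine ⟨fun i => (e i : Char), fun i j hij => e.injective (Subtype.ext hij), ?_⟩
  ext x
  constructor
  · rintro ⟨i, rfl⟩
    exact (e i).2
  · intro hx
    exact ⟨e.symm ⟨x, hx⟩, by simp⟩

/-- adjoining a character: the exceptional set grows by the exceptional twists -/
lemma exc_adjoin {k : ℕ} {Γ : Set Char} (h : Multiquadratic k Γ) {Ψ : Fin (2 ^ k) → Char}
    (hr : Set.range Ψ = Γ) {p : Char} (hp : Rp p) :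
    (Exc (adjoin p Γ)).ncard ≤ (Exc Γ).ncard + {i | ¬ Positive (twist p (Ψ i))}.ncard := by
  have hsub : Exc (adjoin p Γ) ⊆
      Exc Γ ∪ (fun i => prod p (Ψ i)) '' {i | ¬ Positive (twist p (Ψ i))} := by
    rintro q ⟨hq | ⟨r, hrr, rfl⟩, hq1, hq2⟩
    · exact Or.inl ⟨hq, hq1, hq2⟩
    · right
      rw [← hr] at hrr
      obtain ⟨i, rfl⟩ := hrr
      refine ⟨i, fun hpos => hq2 (Positive.of_twist hp (h.prim (Ψ i) ?_) hpos), rfl⟩
      rw [← hr]
      exact ⟨i, rfl⟩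
  have hf1 : (Exc Γ).Finite := h.finite.subset fun q hq => hq.1
  have hf2 : ((fun i => prod p (Ψ i)) '' {i | ¬ Positive (twist p (Ψ i))}).Finite :=
    (Set.toFinite _).image _
  calc (Exc (adjoin p Γ)).ncard ≤ _ := Set.ncard_le_ncard hsub (hf1.union hf2)
    _ ≤ _ := Set.ncard_union_le _ _
    _ ≤ _ := Nat.add_le_add_left (Set.ncard_image_le (Set.toFinite _)) _

lemma part1 {S : Finset ℕ} {c : ℕ → ℤ} {s : ℤ} (H : Base S c s) {k : ℕ} {Γ : Set Char}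
    (h : Multiquadratic k Γ) (hodd : ∀ p ∈ Γ, Odd p.1 ∧ ∀ q ∈ S, ¬ q ∣ p.1)
    (hpos : ∀ p ∈ Γ, p ≠ triv → Positive p) :
    ∃ X0 : ℕ, ∀ X : ℕ, X0 ≤ X →
      (1 - 1351 / 10000 * 2 ^ k : ℝ) * ((Class S c s X).ncard : ℝ) ≤
        ({p | p ∈ Class S c s X ∧ Multiquadratic (k + 1) (adjoin p Γ) ∧
          ∀ q ∈ adjoin p Γ, q ≠ triv → Positive q}.ncard : ℝ) := by
  obtain ⟨Ψ, hinj, hr⟩ := enum h
  have hmem : ∀ i, Ψ i ∈ Γ := fun i => hr ▸ ⟨i, rfl⟩
  obtain ⟨X0, hX⟩ := H.2.2 (2 ^ k) Ψ fun i =>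
    ⟨(hodd _ (hmem i)).1, (h.prim _ (hmem i)).2.1, (h.prim _ (hmem i)).2.2, (hodd _ (hmem i)).2⟩
  refine ⟨X0, fun X hX0 => ?_⟩
  have h1 := hX X hX0 0
  have e : (1 - 1351 / 10000 * ((2 ^ k : ℕ) : ℝ) / (((0 : ℕ) : ℝ) + 1) : ℝ) =
      1 - 1351 / 10000 * 2 ^ k := by
    push_cast
    ring
  rw [e] at h1
  refine h1.trans ?_
  have hsub : (Class S c s X ∩ {p | {i | ¬ Positive (twist p (Ψ i))}.ncard ≤ 0}) ⊆
      {p | p ∈ Class S c s X ∧ Multiquadratic (k + 1) (adjoin p Γ) ∧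
          ∀ q ∈ adjoin p Γ, q ≠ triv → Positive q} := by
    rintro p ⟨hp, hp0⟩
    rw [Set.mem_ofPred_eq, Nat.le_zero, Set.ncard_eq_zero (Set.toFinite _)] at hp0
    have hall : ∀ i, Positive (twist p (Ψ i)) := by
      intro i
      by_contra hi
      have : i ∈ ({i | ¬ Positive (twist p (Ψ i))} : Set _) := hi
      rw [hp0] at this
      exact this
    have hR := Class.rp hp
    have hall' : ∀ q ∈ Γ, Positive (prod p q) := by
      intro q hq
      rw [← hr] at hq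
      obtain ⟨i, rfl⟩ := hq
      exact Positive.of_twist hR (h.prim _ (hmem i)) (hall i)
    have hpΓ : p ∉ Γ := by
      intro hpm
      have := hall' p hpm
      rw [prod_self p hR] at this
      exact not_positive_triv this
    refine ⟨hp, adjoin_mq h hR hpΓ, ?_⟩
    rintro q (hq | ⟨r, hrr, rfl⟩) hq1
    · exact hpos q hq hq1
    · exact hall' r hrr
  have hfin : {p | p ∈ Class S c s X ∧ Multiquadratic (k + 1) (adjoin p Γ) ∧
          ∀ q ∈ adjoin p Γ, q ≠ triv → Positive q}.Finite :=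
    (H.1 X).subset fun q hq => hq.1
  exact_mod_cast Set.ncard_le_ncard hsub hfin

/-- the characters take the value `1` at `-1` and at `2` and the primes of `S` -/
def Split (S : Finset ℕ) (Γ : Set Char) : Prop :=
  ∀ p ∈ Γ, p.2 (-1) = 1 ∧ ∀ q ∈ insert 2 S, p.2 (q : ZMod p.1) = 1

lemma coprime_of_one' {p : Char} {q : ℕ} (h : p.2 (q : ZMod p.1) = 1) :
    Nat.Coprime q p.1 := by
  rw [← ZMod.isUnit_iff_coprime]
  by_contra h0
  rw [MulChar.map_nonunit _ h0] at h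
  exact zero_ne_one h

lemma neg_one_eval {p q : Char} (hp : Rp p) (hq : Rp q) :
    (prod p q).2 (-1) = p.2 (-1) * q.2 (-1) := by
  have hM : Nat.lcm p.1 q.1 ≠ 0 := Nat.lcm_ne_zero hp.1 hq.1
  have h1 : 1 ≤ Nat.lcm p.1 q.1 := Nat.one_le_iff_ne_zero.2 hM
  set k : ℕ := Nat.lcm p.1 q.1 - 1 with hk
  have hcop : Nat.Coprime k (Nat.lcm p.1 q.1) := by
    have h2 : Nat.lcm p.1 q.1 = k + 1 := by omega
    rw [h2]
    exact (Nat.coprime_self_add_right).2 (Nat.coprime_one_right k)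
  have hcast : ∀ d : ℕ, d ∣ Nat.lcm p.1 q.1 → ((k : ℕ) : ZMod d) = -1 := by
    intro d hd
    rw [hk, Nat.cast_sub h1, (ZMod.natCast_eq_zero_iff _ _).2 hd]
    simp
  have := prod_eval hcop
  rw [hcast _ (prod_dvd p q), hcast _ (Nat.dvd_lcm_left _ _), hcast _ (Nat.dvd_lcm_right _ _)]
    at this
  exact this

lemma Split.adjoin {S : Finset ℕ} {k : ℕ} {Γ : Set Char} (h : Multiquadratic k Γ)
    (hS : Split S Γ) {p : Char} (hp : Rp p) (h1 : p.2 (-1) = 1)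
    (h2 : ∀ q ∈ insert 2 S, p.2 (q : ZMod p.1) = 1) : Split S (adjoin p Γ) := by
  rintro r (hr | ⟨r, hr, rfl⟩)
  · exact hS r hr
  · refine ⟨?_, fun q hq => ?_⟩
    · rw [neg_one_eval hp (h.prim r hr), h1, (hS r hr).1, one_mul]
    · have c1 := coprime_of_one' (h2 q hq)
      have c2 := coprime_of_one' ((hS r hr).2 q hq)
      rw [prod_eval (cop_lcm c1 c2), h2 q hq, (hS r hr).2 q hq, one_mul]

lemma step {S : Finset ℕ} (hS : ∀ p ∈ S, p.Prime) (H : Base (insert 2 S) (fun _ => 1) 1) {k : ℕ}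
    {Γ : Set Char}
    (h : Multiquadratic k Γ) (hs : Split S Γ) (B : ℕ) (hB : ∀ p ∈ Γ, p ≠ triv → B < p.1) :
    ∃ Δ : Set Char, Multiquadratic (k + 1) Δ ∧ Split S Δ ∧ (∀ p ∈ Δ, p ≠ triv → B < p.1) ∧
      (Exc Δ).ncard ≤ (Exc Γ).ncard + 1351 * 2 ^ k / 10000 := by
  obtain ⟨Ψ, hinj, hr⟩ := enum h
  have hmem : ∀ i, Ψ i ∈ Γ := fun i => hr ▸ ⟨i, rfl⟩
  obtain ⟨X1, hX1⟩ := H.2.2 (2 ^ k) Ψ fun i => by
    refine ⟨?_, (h.prim _ (hmem i)).2.1, (h.prim _ (hmem i)).2.2, ?_⟩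
    · have c := coprime_of_one' ((hs _ (hmem i)).2 2 (Finset.mem_insert_self _ _))
      exact (Nat.coprime_two_left).1 c
    · intro q hq hdvd
      have c := coprime_of_one' ((hs _ (hmem i)).2 q hq)
      have hq1 : q.Prime := by
        rcases Finset.mem_insert.1 hq with rfl | hq'
        · exact Nat.prime_two
        · exact hS q hq'
      have := (Nat.Prime.coprime_iff_not_dvd hq1).1 c
      exact this hdvd
  obtain ⟨κ, hκ, X2, hX2⟩ := H.2.1
  -- a bound for the levels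
  obtain ⟨L, hL⟩ : ∃ L : ℕ, ∀ p ∈ Γ, p.1 ≤ L := by
    have hfin : ((fun p : Char => p.1) '' Γ).Finite := h.finite.image _
    obtain ⟨L, hL⟩ := hfin.bddAbove
    exact ⟨L, fun p hp => hL ⟨p, hp, rfl⟩⟩
  set j : ℕ := 1351 * 2 ^ k / 10000 with hj
  have hδ : 0 < (1 - 1351 / 10000 * ((2 ^ k : ℕ) : ℝ) / ((j : ℝ) + 1) : ℝ) := by
    have h1 : 1351 * 2 ^ k < 10000 * (j + 1) := by
      have := Nat.lt_mul_div_succ (1351 * 2 ^ k) (show 0 < 10000 by norm_num)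
      exact this
    have h2 : (1351 : ℝ) * ((2 ^ k : ℕ) : ℝ) < 10000 * ((j : ℝ) + 1) := by exact_mod_cast h1
    have h3 : (0 : ℝ) < (j : ℝ) + 1 := by positivity
    rw [sub_pos, div_lt_one h3]
    linarith
  set δ : ℝ := (1 - 1351 / 10000 * ((2 ^ k : ℕ) : ℝ) / ((j : ℝ) + 1) : ℝ) with hδdef
  obtain ⟨X3, hX3⟩ := exists_nat_gt
    (((Class (insert 2 S) (fun _ => 1) 1 ((B + 1) * L)).ncard : ℝ) / (δ * κ))
  set X : ℕ := X1 + X2 + X3 with hX
  have hcount := hX1 X (by omega) j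
  have hcl := hX2 X (by omega)
  have hbig : ((Class (insert 2 S) (fun _ => 1) 1 ((B + 1) * L)).ncard : ℝ) <
      ((Class (insert 2 S) (fun _ => 1) 1 X ∩
        {p | {i | ¬ Positive (twist p (Ψ i))}.ncard ≤ j}).ncard : ℝ) := by
    have h4 : (X3 : ℝ) ≤ X := by
      rw [hX]
      push_cast
      have : (0 : ℝ) ≤ X1 := by positivity
      have : (0 : ℝ) ≤ X2 := by positivity
      linarith
    rw [div_lt_iff₀ (by positivity)] at hX3
    calc ((Class (insert 2 S) (fun _ => 1) 1 ((B + 1) * L)).ncard : ℝ) < X3 * (δ * κ) := hX3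
      _ ≤ X * (δ * κ) := by gcongr
      _ = δ * (κ * X) := by ring
      _ ≤ δ * ((Class (insert 2 S) (fun _ => 1) 1 X).ncard : ℝ) := by gcongr
      _ ≤ _ := hcount
  obtain ⟨p, hp, hpn⟩ : ∃ p ∈ (Class (insert 2 S) (fun _ => 1) 1 X ∩
        {p | {i | ¬ Positive (twist p (Ψ i))}.ncard ≤ j}),
      p ∉ Class (insert 2 S) (fun _ => 1) 1 ((B + 1) * L) := by
    by_contra hcon
    push Not at hcon
    have := Set.ncard_le_ncard (fun p hp => hcon p hp) (H.1 _)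
    have h5 : ((Class (insert 2 S) (fun _ => 1) 1 X ∩
        {p | {i | ¬ Positive (twist p (Ψ i))}.ncard ≤ j}).ncard : ℝ) ≤
        ((Class (insert 2 S) (fun _ => 1) 1 ((B + 1) * L)).ncard : ℝ) := by exact_mod_cast this
    linarith
  obtain ⟨hpc, hpj⟩ := hp
  have hR := Class.rp hpc
  have hlarge : (B + 1) * L < p.1 := by
    by_contra hle
    exact hpn ⟨hpc.1, not_lt.1 hle, hpc.2.2⟩
  have hL1 : 1 ≤ L := hL triv h.one
  have hpΓ : p ∉ Γ := by
    intro hm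
    have := hL p hm
    nlinarith
  have hp1 : p.2 (-1) = 1 := by
    have := hpc.2.2.2.2.2.1
    simpa using this
  have hp2 : ∀ q ∈ insert 2 S, p.2 (q : ZMod p.1) = 1 := by
    intro q hq
    have := hpc.2.2.2.2.2.2 q hq
    simpa using this
  refine ⟨adjoin p Γ, adjoin_mq h hR hpΓ, hs.adjoin h hR hp1 hp2, ?_, ?_⟩
  · rintro q (hq | ⟨r, hrr, rfl⟩) hq1
    · exact hB q hq hq1
    · have hRr : Rp r := h.prim r hrr
      have e : prod (prod p r) r = p := by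
        rw [prod_assoc p r r hR hRr hRr, prod_self r hRr, prod_triv p hR]
      have hd : p.1 ∣ Nat.lcm (prod p r).1 r.1 := by
        have := prod_dvd (prod p r) r
        rw [e] at this
        exact this
      have hle : p.1 ≤ (prod p r).1 * r.1 := by
        refine Nat.le_of_dvd ?_ (hd.trans (Nat.lcm_dvd_mul _ _))
        exact Nat.mul_pos (Nat.pos_of_ne_zero (hR.prod hRr).1) (Nat.pos_of_ne_zero hRr.1)
      have h6 := hL r hrr
      by_contra hcon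
      have h7 : (prod p r).1 ≤ B := not_lt.1 hcon
      have h8 : (prod p r).1 * r.1 ≤ B * L := Nat.mul_le_mul h7 h6
      nlinarith
  · have := exc_adjoin h hr hR
    exact this.trans (Nat.add_le_add_left hpj _)

lemma triv_mq : Multiquadratic 0 {triv} := by
  refine ⟨by simp, ?_, rfl, ?_⟩
  · rintro p rfl
    exact Rp.triv
  · rintro p rfl q rfl
    rw [Set.mem_singleton_iff]
    exact prod_triv _ Rp.triv

lemma triv_split (S : Finset ℕ) : Split S {triv} := by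
  rintro p rfl
  refine ⟨?_, fun q _ => triv_eval q⟩
  have := triv_eval 0
  have e : (-1 : ZMod triv.1) = ((0 : ℕ) : ZMod triv.1) :=
    Subsingleton.elim (α := ZMod 1) _ _
  rw [e]
  exact this

lemma part2 {S : Finset ℕ} (hS : ∀ p ∈ S, p.Prime) (H : Base (insert 2 S) (fun _ => 1) 1)
    (k B : ℕ) :
    ∃ Γ : Set Char, Multiquadratic k Γ ∧ Split S Γ ∧ (∀ p ∈ Γ, p ≠ triv → B < p.1) ∧
      (Exc Γ).ncard ≤ ∑ i ∈ Finset.range k, 1351 * 2 ^ i / 10000 := by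
  induction k with
  | zero =>
    refine ⟨{triv}, triv_mq, triv_split S, ?_, ?_⟩
    · rintro p rfl h
      exact absurd rfl h
    · have : Exc {triv} = ∅ := by
        ext p
        simp only [Exc, Set.mem_singleton_iff, Set.mem_ofPred_eq, Set.mem_empty_iff_false, iff_false]
        rintro ⟨rfl, h, -⟩
        exact h rfl
      rw [this]
      simp
  | succ k ih =>
    obtain ⟨Γ, h1, h2, h3, h4⟩ := ih
    obtain ⟨Δ, g1, g2, g3, g4⟩ := step hS H h1 h2 B h3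
    refine ⟨Δ, g1, g2, g3, ?_⟩
    rw [Finset.sum_range_succ]
    omega

end Pool.Agent.Run7.h74.MQ
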