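import Mathlib

set_option autoImplicit false

/-!
# Groups of real primitive Dirichlet characters

The characters of a multiquadratic field form a group for the primitive product.
-/

namespace Pool.Agent.Run7.h74.MQ

open DirichletCharacter

abbrev Char : Type := Σ N : ℕ, DirichletCharacter ℂ N

/-- The trivial character, modulo `1`. -/
noncomputable def triv : Char := ⟨1, 1⟩

/-- The primitive character which induces the product of two characters. -/
noncomputable def prod (p q : Char) : Char :=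
  ⟨(p.2.mul q.2).conductor, (p.2.mul q.2).primitiveCharacter⟩

noncomputable def twist (p Q : Char) : Char := ⟨Nat.lcm p.1 Q.1, p.2.mul Q.2⟩

structure Multiquadratic (k : ℕ) (Γ : Set Char) : Prop where
  card : Γ.ncard = 2 ^ k
  prim : ∀ p ∈ Γ, p.1 ≠ 0 ∧ p.2.IsPrimitive ∧ p.2 ^ 2 = 1
  one : triv ∈ Γ
  mul : ∀ p ∈ Γ, ∀ q ∈ Γ, prod p q ∈ Γ

def Positive (p : Char) : Prop :=
  ∃ _ : NeZero p.1, ∀ s : ℝ, 0 < s → s < 1 →
    (DirichletCharacter.LFunction p.2 (s : ℂ)).im = 0 ∧
    0 < (DirichletCharacter.LFunction p.2 (s : ℂ)).re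

/-- real primitive -/
def Rp (p : Char) : Prop := p.1 ≠ 0 ∧ p.2.IsPrimitive ∧ p.2 ^ 2 = 1

lemma eval_changeLevel {n m : ℕ} (h : n ∣ m) (χ : DirichletCharacter ℂ n) {k : ℕ}
    (hk : Nat.Coprime k m) : changeLevel h χ (k : ZMod m) = χ (k : ZMod n) := by
  have := changeLevel_eq_cast_of_dvd χ h (ZMod.unitOfCoprime k hk)
  simpa [ZMod.coe_unitOfCoprime, ZMod.cast_natCast h] using this

/-- two primitive characters which agree at the integers prime to some modulus are equal -/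
lemma ext_of_agree {p q : Char} (hp0 : p.1 ≠ 0) (hq0 : q.1 ≠ 0) (hp : p.2.IsPrimitive)
    (hq : q.2.IsPrimitive) (N : ℕ) (hN : N ≠ 0)
    (h : ∀ k : ℕ, Nat.Coprime k N → p.2 (k : ZMod p.1) = q.2 (k : ZMod q.1)) : p = q := by
  obtain ⟨n, χ⟩ := p
  obtain ⟨m, ψ⟩ := q
  simp only at hp0 hq0 hp hq h
  have hM : n * m * N ≠ 0 := by positivity
  have : NeZero (n * m * N) := ⟨hM⟩
  have h1 : n ∣ n * m * N := ⟨m * N, by ring⟩
  have h2 : m ∣ n * m * N := ⟨n * N, by ring⟩
  have key : changeLevel h1 χ = changeLevel h2 ψ := by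
    apply MulChar.ext
    intro u
    have hu : ((((u : ZMod (n * m * N)).val : ℕ)) : ZMod (n * m * N)) = u := ZMod.natCast_zmod_val _
    have hc : Nat.Coprime ((u : ZMod (n * m * N)).val) (n * m * N) := by
      exact ZMod.val_coe_unit_coprime u
    rw [← hu, eval_changeLevel h1 χ hc, eval_changeLevel h2 ψ hc]
    exact h _ (Nat.Coprime.coprime_dvd_right ⟨n * m, by ring⟩ hc)
  have hc1 := conductor_changeLevel (χ := χ) h1
  have hc2 := conductor_changeLevel (χ := ψ) h2
  rw [key, hc2] at hc1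
  rw [isPrimitive_def] at hp hq
  rw [hp, hq] at hc1
  subst hc1
  congr 1
  exact changeLevel_injective h1 key

lemma prod_level_ne {p q : Char} (hp0 : p.1 ≠ 0) (hq0 : q.1 ≠ 0) : (prod p q).1 ≠ 0 := by
  have : NeZero (Nat.lcm p.1 q.1) := ⟨Nat.lcm_ne_zero hp0 hq0⟩
  exact conductor_ne_zero _

lemma prod_dvd (p q : Char) : (prod p q).1 ∣ Nat.lcm p.1 q.1 := conductor_dvd_level _

lemma mul_eval {n m : ℕ} (χ : DirichletCharacter ℂ n) (ψ : DirichletCharacter ℂ m) {k : ℕ}
    (hk : Nat.Coprime k (Nat.lcm n m)) :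
    (χ.mul ψ) (k : ZMod (Nat.lcm n m)) = χ (k : ZMod n) * ψ (k : ZMod m) := by
  unfold DirichletCharacter.mul
  rw [MulChar.mul_apply, eval_changeLevel _ _ hk, eval_changeLevel _ _ hk]

lemma prod_eval {p q : Char} {k : ℕ} (hk : Nat.Coprime k (Nat.lcm p.1 q.1)) :
    (prod p q).2 (k : ZMod (prod p q).1) = p.2 (k : ZMod p.1) * q.2 (k : ZMod q.1) := by
  have h := changeLevel_primitiveCharacter (χ := p.2.mul q.2)
  have h2 := eval_changeLevel (conductor_dvd_level (p.2.mul q.2))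
    (p.2.mul q.2).primitiveCharacter hk
  rw [h, mul_eval _ _ hk] at h2
  exact h2.symm

lemma prod_prim (p q : Char) : (prod p q).2.IsPrimitive := primitiveCharacter_isPrimitive _

lemma Rp.eval {p : Char} (hp : Rp p) {k : ℕ} (hk : Nat.Coprime k p.1) :
    p.2 (k : ZMod p.1) * p.2 (k : ZMod p.1) = 1 := by
  have h := hp.2.2
  have hu : IsUnit (k : ZMod p.1) := (ZMod.isUnit_iff_coprime k p.1).2 hk
  have := congrArg (fun f : DirichletCharacter ℂ p.1 => f (k : ZMod p.1)) h
  simp only [pow_two, MulChar.mul_apply] at this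
  rw [this, MulChar.one_apply hu]

lemma Rp.prod {p q : Char} (hp : Rp p) (hq : Rp q) : Rp (prod p q) := by
  refine ⟨prod_level_ne hp.1 hq.1, prod_prim p q, ?_⟩
  have : NeZero (Nat.lcm p.1 q.1) := ⟨Nat.lcm_ne_zero hp.1 hq.1⟩
  apply changeLevel_injective (prod_dvd p q)
  rw [map_pow, map_one]
  have h := changeLevel_primitiveCharacter (χ := p.2.mul q.2)
  change (changeLevel (conductor_dvd_level (p.2.mul q.2)) (p.2.mul q.2).primitiveCharacter) ^ 2 = 1
  rw [h]
  unfold DirichletCharacter.mul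
  rw [mul_pow, ← map_pow, ← map_pow, hp.2.2, hq.2.2, map_one, map_one, mul_one]

lemma Rp.triv : Rp triv := by
  refine ⟨one_ne_zero, ?_, one_pow _⟩
  exact isPrimitive_one_level_one

lemma triv_eval (k : ℕ) : triv.2 (k : ZMod triv.1) = 1 := by
  have : IsUnit (k : ZMod 1) := by
    rw [Subsingleton.elim (k : ZMod 1) 1]
    exact isUnit_one
  exact MulChar.one_apply this

lemma cop {k a b : ℕ} (h : Nat.Coprime k (a * b)) : Nat.Coprime k a ∧ Nat.Coprime k b :=
  Nat.coprime_mul_iff_right.1 h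

lemma cop_lcm {k a b : ℕ} (h1 : Nat.Coprime k a) (h2 : Nat.Coprime k b) :
    Nat.Coprime k (Nat.lcm a b) :=
  Nat.Coprime.coprime_dvd_right (Nat.lcm_dvd_mul a b) (Nat.Coprime.mul_right h1 h2)

lemma cop_prod {k : ℕ} {p q : Char} (h1 : Nat.Coprime k p.1) (h2 : Nat.Coprime k q.1) :
    Nat.Coprime k (prod p q).1 :=
  Nat.Coprime.coprime_dvd_right (prod_dvd p q) (cop_lcm h1 h2)

lemma prod_comm (p q : Char) (hp : Rp p) (hq : Rp q) : prod p q = prod q p := by
  refine ext_of_agree (hp.prod hq).1 (hq.prod hp).1 (prod_prim _ _) (prod_prim _ _)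
    (p.1 * q.1) (mul_ne_zero hp.1 hq.1) fun k hk => ?_
  obtain ⟨h1, h2⟩ := cop hk
  rw [prod_eval (cop_lcm h1 h2), prod_eval (cop_lcm h2 h1), mul_comm]

lemma prod_self (p : Char) (hp : Rp p) : prod p p = triv := by
  refine ext_of_agree (hp.prod hp).1 Rp.triv.1 (prod_prim _ _) Rp.triv.2.1
    p.1 hp.1 fun k hk => ?_
  rw [prod_eval (cop_lcm hk hk), hp.eval hk, triv_eval]

lemma prod_triv (p : Char) (hp : Rp p) : prod p triv = p := by
  refine ext_of_agree (hp.prod Rp.triv).1 hp.1 (prod_prim _ _) hp.2.1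
    p.1 hp.1 fun k hk => ?_
  rw [prod_eval (cop_lcm hk (Nat.coprime_one_right k)), triv_eval, mul_one]

lemma prod_assoc (p q r : Char) (hp : Rp p) (hq : Rp q) (hr : Rp r) :
    prod (prod p q) r = prod p (prod q r) := by
  refine ext_of_agree ((hp.prod hq).prod hr).1 (hp.prod (hq.prod hr)).1 (prod_prim _ _)
    (prod_prim _ _) (p.1 * q.1 * r.1) (mul_ne_zero (mul_ne_zero hp.1 hq.1) hr.1) fun k hk => ?_
  obtain ⟨h12, h3⟩ := cop hk
  obtain ⟨h1, h2⟩ := cop h12
  rw [prod_eval (cop_lcm (cop_prod h1 h2) h3), prod_eval (cop_lcm h1 h2),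
    prod_eval (cop_lcm h1 (cop_prod h2 h3)), prod_eval (cop_lcm h2 h3), mul_assoc]

lemma prod_cancel (p q : Char) (hp : Rp p) (hq : Rp q) : prod p (prod p q) = q := by
  rw [← prod_assoc p p q hp hp hq, prod_self p hp, prod_comm _ _ Rp.triv hq, prod_triv q hq]

/-- the characters of `F(√D)` -/
def adjoin (p : Char) (Γ : Set Char) : Set Char := Γ ∪ prod p '' Γ

lemma Multiquadratic.finite {k : ℕ} {Γ : Set Char} (h : Multiquadratic k Γ) : Γ.Finite := by
  apply Set.finite_of_ncard_ne_zero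
  rw [h.card]
  positivity

lemma adjoin_mq {k : ℕ} {Γ : Set Char} (h : Multiquadratic k Γ) {p : Char} (hp : Rp p)
    (hpΓ : p ∉ Γ) : Multiquadratic (k + 1) (adjoin p Γ) := by
  have hfin := h.finite
  have hR : ∀ q ∈ Γ, Rp q := fun q hq => h.prim q hq
  have hinj : Set.InjOn (prod p) Γ := by
    intro q hq r hr hqr
    rw [← prod_cancel p q hp (hR q hq), hqr, prod_cancel p r hp (hR r hr)]
  have hdis : Disjoint Γ (prod p '' Γ) := by
    rw [Set.disjoint_left]
    rintro x hx ⟨q, hq, rfl⟩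
    apply hpΓ
    have h1 := h.mul _ hx q hq
    rw [prod_assoc p q q hp (hR q hq) (hR q hq), prod_self q (hR q hq), prod_triv p hp] at h1
    exact h1
  refine ⟨?_, ?_, Or.inl h.one, ?_⟩
  · unfold adjoin
    rw [Set.ncard_union_eq hdis hfin (hfin.image _), hinj.ncard_image, h.card]
    ring
  · rintro q (hq | ⟨r, hr, rfl⟩)
    · exact h.prim q hq
    · exact hp.prod (hR r hr)
  · rintro q (hq | ⟨q, hq, rfl⟩) r (hr | ⟨r, hr, rfl⟩)
    · exact Or.inl (h.mul q hq r hr)
    · refine Or.inr ⟨prod q r, h.mul q hq r hr, ?_⟩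
      rw [← prod_assoc p q r hp (hR q hq) (hR r hr), prod_comm p q hp (hR q hq),
        prod_assoc q p r (hR q hq) hp (hR r hr)]
    · refine Or.inr ⟨prod q r, h.mul q hq r hr, ?_⟩
      rw [prod_assoc p q r hp (hR q hq) (hR r hr)]
    · refine Or.inl ?_
      have e : prod (prod p q) (prod p r) = prod q r := by
        rw [prod_comm p q hp (hR q hq), prod_assoc q p _ (hR q hq) hp (hp.prod (hR r hr)),
          prod_cancel p r hp (hR r hr)]
      rw [e]
      exact h.mul q hq r hr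

end Pool.Agent.Run7.h74.MQ
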